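import Pool.Agent.Y843.DC.Small

/-!
# No double covering of `[1, n]` by one class for each prime `p ≤ n`, for `2 ≤ n ≤ 232`
-/

set_option autoImplicit false

namespace Pool.Agent.Y843.DC

open Finset

lemma chain (n L : ℕ) : ∀ j, Defi n (L + ((Ioc n (n + j)).filter Nat.Prime).card) → Defi (n + j) L := by
  intro j
  induction j generalizing L with
  | zero => intro h; exact h.mono (by omega)
  | succ j ih =>
    intro h
    have e : Ioc n (n + (j + 1)) = insert (n + j + 1) (Ioc n (n + j)) := by
      ext x; rw [mem_insert, mem_Ioc, mem_Ioc]; omega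
    rw [e, filter_insert] at h
    by_cases hp : (n + j + 1).Prime
    · rw [if_pos hp, card_insert_of_notMem (by rw [mem_filter, mem_Ioc]; omega)] at h
      exact step (ih (L + 1) (h.mono (by omega)))
    · rw [if_neg hp] at h
      exact step' hp (ih L h)

lemma range_not (n L k : ℕ) (h : Defi n L) (hk : ((Ioc n (n + k)).filter Nat.Prime).card + 1 ≤ L) :
    ∀ m, n ≤ m → m ≤ n + k → ¬ Has m := by
  intro m h1 h2
  obtain ⟨j, rfl⟩ := Nat.exists_eq_add_of_le h1
  refine not_has (chain n 1 j (h.mono ?_)) le_rfl
  have : ((Ioc n (n + j)).filter Nat.Prime).card ≤ ((Ioc n (n + k)).filter Nat.Prime).card := by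
    apply card_le_card
    apply filter_subset_filter
    intro x hx
    rw [mem_Ioc] at hx ⊢
    omega
  omega

set_option maxRecDepth 100000

lemma d2 : Defi 2 3 := criterion [] 2 3 (by decide) (by decide) (by decide) 1 0
  (by decide +kernel) (by decide +kernel) (by decide +kernel) (by decide)

lemma d4 : Defi 4 4 := criterion [] 4 4 (by decide) (by decide) (by decide) 4 0
  (by decide +kernel) (by decide +kernel) (by decide +kernel) (by decide)

lemma d10 : Defi 10 7 := criterion [] 10 7 (by decide) (by decide) (by decide) 13 0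
  (by decide +kernel) (by decide +kernel) (by decide +kernel) (by decide)

lemma d28 : Defi 28 10 := criterion [] 28 10 (by decide) (by decide) (by decide) 46 0
  (by decide +kernel) (by decide +kernel) (by decide +kernel) (by decide)

lemma cop5 : List.Pairwise Nat.Coprime [2, 3, 5, 7, 11] := by decide

lemma r57 : R [2, 3, 5, 7, 11] 57 = 29 := by decide +kernel

lemma a57 : ∑ x ∈ Icc 1 57, w [2, 3, 5, 7, 11] x = 69 := by decide +kernel

lemma g57 : go [2, 3, 5, 7, 11] 57 71 2310 0 69 0 = true := by decide +kernel

lemma d57 : Defi 57 15 := criterion [2, 3, 5, 7, 11] 57 15 cop5 (by decide) (by decide) 29 69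
  r57 a57 g57 (by decide)

lemma r101 : R [2, 3, 5, 7, 11] 101 = 66 := by decide +kernel

lemma a101 : ∑ x ∈ Icc 1 101, w [2, 3, 5, 7, 11] x = 119 := by decide +kernel

lemma g101 : go [2, 3, 5, 7, 11] 101 123 2310 0 119 0 = true := by decide +kernel

lemma d101 : Defi 101 14 := criterion [2, 3, 5, 7, 11] 101 14 cop5 (by decide) (by decide) 66 119
  r101 a101 g101 (by decide)

lemma r151 : R [2, 3, 5, 7, 11] 151 = 111 := by decide +kernel

lemma a151 : ∑ x ∈ Icc 1 151, w [2, 3, 5, 7, 11] x = 175 := by decide +kernel

lemma g151 : go [2, 3, 5, 7, 11] 151 182 2310 0 175 0 = true := by decide +kernel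

lemma d151 : Defi 151 10 := criterion [2, 3, 5, 7, 11] 151 10 cop5 (by decide) (by decide) 111 175
  r151 a151 g151 (by decide)

lemma r199 : R [2, 3, 5, 7, 11] 199 = 157 := by decide +kernel

lemma a199 : ∑ x ∈ Icc 1 199, w [2, 3, 5, 7, 11] x = 231 := by decide +kernel

lemma g199 : go [2, 3, 5, 7, 11] 199 237 2310 0 231 0 = true := by decide +kernel

lemma d199 : Defi 199 5 := criterion [2, 3, 5, 7, 11] 199 5 cop5 (by decide) (by decide) 157 231
  r199 a199 g199 (by decide)

/-- no double covering of `[1, n]` for `2 ≤ n ≤ 232` -/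
theorem small (n : ℕ) (h1 : 2 ≤ n) (h2 : n ≤ 232) : ¬ Has n := by
  rcases Nat.lt_or_ge n 4 with h | h
  · exact range_not 2 3 4 d2 (by decide +kernel) n h1 (by omega)
  rcases Nat.lt_or_ge n 10 with h | h
  · exact range_not 4 4 8 d4 (by decide +kernel) n (by omega) (by omega)
  rcases Nat.lt_or_ge n 28 with h | h
  · exact range_not 10 7 18 d10 (by decide +kernel) n (by omega) (by omega)
  rcases Nat.lt_or_ge n 57 with h | h
  · exact range_not 28 10 38 d28 (by decide +kernel) n (by omega) (by omega)
  rcases Nat.lt_or_ge n 101 with h | h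
  · exact range_not 57 15 69 d57 (by decide +kernel) n (by omega) (by omega)
  rcases Nat.lt_or_ge n 151 with h | h
  · exact range_not 101 14 71 d101 (by decide +kernel) n (by omega) (by omega)
  rcases Nat.lt_or_ge n 199 with h | h
  · exact range_not 151 10 47 d151 (by decide +kernel) n (by omega) (by omega)
  · exact range_not 199 5 33 d199 (by decide +kernel) n (by omega) (by omega)

end Pool.Agent.Y843.DC
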