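import Mathlib

/-!
# No double covering of `[1, n]` by one class for each prime `p ≤ n`, for `2 ≤ n ≤ 280`

The classes modulo the primes of a small set `S` are, by the Chinese remainder theorem, the classes
`x ≡ -t` for one `t < M = ∏ S`; so they cover at most `max_t ∑_x min (#{p ∈ S : p ∣ x + t}) 2` of the
`2 n` places, and every other prime covers at most `⌈n / p⌉`.
-/

set_option autoImplicit false

namespace Pool.Agent.Y843.DC

open Finset

/-- `[1, n]` has a double covering -/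
def Has (n : ℕ) : Prop :=
  ∃ a : ℕ → ℤ, ∀ x : ℕ, 1 ≤ x → x ≤ n →
    2 ≤ ((Finset.range (n + 1)).filter (fun p : ℕ => p.Prime ∧ (x : ℤ) ≡ a p [ZMOD p])).card

/-- number of members of `S` which divide `m` -/
def cnt (m : ℕ) : List ℕ → ℕ
  | [] => 0
  | p :: S => (1 - m % p) + cnt m S

/-- weight -/
def cap (c : ℕ) : ℕ := c - (c - 2)

/-- weight -/
def w (S : List ℕ) (m : ℕ) : ℕ := cap (cnt m S)

lemma cnt_eq (m : ℕ) : ∀ S : List ℕ, cnt m S = (S.map (fun p => if m % p = 0 then 1 else 0)).sum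
  | [] => rfl
  | p :: S => by
    rw [cnt, cnt_eq m S, List.map_cons, List.sum_cons]
    congr 1
    split_ifs with h <;> omega

lemma cap_eq (c : ℕ) : cap c = min 2 c := by unfold cap; omega

/-- the sliding window check -/
def go (S : List ℕ) (n bound : ℕ) : ℕ → ℕ → ℕ → ℕ → Bool
  | 0, _, _, _ => true
  | k + 1, t, A, B => (Nat.blt A (B + bound)) && go S n bound k (t + 1) (A + w S (t + n + 1)) (B + w S (t + 1))

lemma go_spec (S : List ℕ) (n bound : ℕ) : ∀ (k t A B : ℕ), go S n bound k t A B = true →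
    A = B + ∑ x ∈ Icc 1 n, w S (t + x) →
    ∀ t', t ≤ t' → t' < t + k → ∑ x ∈ Icc 1 n, w S (t' + x) < bound := by
  intro k
  induction k with
  | zero => intro t A B _ _ t' h1 h2; omega
  | succ k ih =>
    intro t A B h hA t' h1 h2
    rw [go, Bool.and_eq_true, Nat.blt_eq] at h
    rcases Nat.eq_or_lt_of_le h1 with h3 | h3
    · subst h3
      omega
    · refine ih (t + 1) _ _ h.2 ?_ t' h3 (by omega)
      have e1 : ∑ x ∈ Icc 1 n, w S (t + 1 + x) + w S (t + 1) =
          ∑ x ∈ Icc 1 n, w S (t + x) + w S (t + n + 1) := by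
        have e2 : ∑ x ∈ Icc 1 n, w S (t + 1 + x) = ∑ x ∈ Icc 2 (n + 1), w S (t + x) := by
          refine Finset.sum_bij (fun x _ => x + 1) ?_ ?_ ?_ ?_
          · intro x hx; rw [mem_Icc] at hx ⊢; omega
          · intro x _ y _ h; omega
          · intro y hy; rw [mem_Icc] at hy; exact ⟨y - 1, by rw [mem_Icc]; omega, by omega⟩
          · intro x _
            have : t + 1 + x = t + (x + 1) := by omega
            rw [this]
        rw [e2]
        have e3 : ∑ x ∈ Icc 1 (n + 1), w S (t + x) = ∑ x ∈ Icc 2 (n + 1), w S (t + x) + w S (t + 1) := by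
          have e5 : (Icc 1 (n + 1)).erase 1 = Icc 2 (n + 1) := by
            ext x; rw [mem_erase, mem_Icc, mem_Icc]; omega
          rw [← Finset.sum_erase_add _ _ (show 1 ∈ Icc 1 (n + 1) by rw [mem_Icc]; omega), e5]
        have e4 : ∑ x ∈ Icc 1 (n + 1), w S (t + x) = ∑ x ∈ Icc 1 n, w S (t + x) + w S (t + (n + 1)) := by
          rw [Finset.sum_Icc_succ_top (by omega)]
        rw [← e3, e4, add_assoc t n 1]
      omega

/-- number of elements of a class in `[1, n]` -/
lemma card_class (n p : ℕ) (hp : 0 < p) (a : ℤ) :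
    ((Icc 1 n).filter (fun x : ℕ => (x : ℤ) ≡ a [ZMOD p])).card ≤ (n + p - 1) / p := by
  obtain ⟨b, hb⟩ : ∃ b : ℕ, (b : ℤ) ≡ a [ZMOD p] := by
    refine ⟨(a % p).toNat, ?_⟩
    rw [Int.toNat_of_nonneg (Int.emod_nonneg _ (by omega))]
    exact Int.mod_modEq _ _
  have e : (Icc 1 n).filter (fun x : ℕ => (x : ℤ) ≡ a [ZMOD p]) = (Ioc 0 n).filter (fun x => x ≡ b [MOD p]) := by
    ext x
    rw [mem_filter, mem_filter, mem_Icc, mem_Ioc]
    constructor
    · rintro ⟨h1, h2⟩
      exact ⟨by omega, (Int.natCast_modEq_iff).1 (h2.trans hb.symm)⟩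
    · rintro ⟨h1, h2⟩
      exact ⟨by omega, ((Int.natCast_modEq_iff).2 h2).trans hb⟩
  rw [e]
  -- map x ↦ (x - 1) / p is injective on the class
  calc ((Ioc 0 n).filter (fun x => x ≡ b [MOD p])).card ≤ (range ((n + p - 1) / p)).card := by
        apply Finset.card_le_card_of_injOn (fun x => (x - 1) / p)
        · intro x hx
          rw [mem_coe, mem_filter, mem_Ioc] at hx
          rw [mem_coe, mem_range]
          have h1 : (x - 1) / p * p ≤ x - 1 := Nat.div_mul_le_self _ _
          change (x - 1) / p < _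
          rw [Nat.lt_iff_add_one_le, Nat.le_div_iff_mul_le hp, add_mul, one_mul]
          omega
        · intro x hx y hy hxy
          rw [mem_coe, mem_filter, mem_Ioc] at hx hy
          simp only at hxy
          have h1 := Nat.div_add_mod (x - 1) p
          have h2 := Nat.div_add_mod (y - 1) p
          have h3 : (x - 1) ≡ (y - 1) [MOD p] := by
            have h4 : x ≡ y [MOD p] := hx.2.trans hy.2.symm
            have h5 : (x - 1) + 1 ≡ (y - 1) + 1 [MOD p] := by
              rwa [Nat.sub_add_cancel (by omega), Nat.sub_add_cancel (by omega)]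
            exact Nat.ModEq.add_right_cancel' 1 h5
          have h4 : (x - 1) % p = (y - 1) % p := h3
          rw [hxy, h4] at h1
          omega
    _ = _ := card_range _

/-- the coverage of the primes outside `S` -/
def R (S : List ℕ) (n : ℕ) : ℕ :=
  ∑ p ∈ (range (n + 1)).filter (fun p => p.Prime ∧ p ∉ S), (n + p - 1) / p

lemma crt (S : List ℕ) (hS : S.Pairwise Nat.Coprime) (a : ℕ → ℤ) (hpos : ∀ p ∈ S, 0 < p) :
    ∃ t : ℕ, t < S.prod ∧ ∀ p ∈ S, (t : ℤ) ≡ - a p [ZMOD p] := by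
  have h0 : 0 < S.prod := List.prod_pos hpos
  have hc : ∃ t : ℕ, ∀ p ∈ S, (t : ℤ) ≡ - a p [ZMOD p] := by
    have h := (Nat.chineseRemainderOfList (fun p => ((- a p) % p).toNat) id S (List.Pairwise.imp (fun h => h) hS))
    refine ⟨h.1, fun p hp => ?_⟩
    have h1 := h.2 p hp
    have hp0 := hpos p hp
    have h2 : ((h.1 : ℕ) : ℤ) ≡ (((- a p) % p).toNat : ℤ) [ZMOD p] := by
      exact_mod_cast (Int.natCast_modEq_iff).2 h1
    refine h2.trans ?_
    rw [Int.toNat_of_nonneg (Int.emod_nonneg _ (by omega))]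
    exact Int.mod_modEq _ _
  obtain ⟨t, ht⟩ := hc
  refine ⟨t % S.prod, Nat.mod_lt _ h0, fun p hp => ?_⟩
  refine Int.ModEq.trans ?_ (ht p hp)
  rw [Int.natCast_modEq_iff]
  exact (Nat.mod_modEq t S.prod).of_dvd (List.dvd_prod hp)

/-- the number of the classes of `a` modulo primes `≤ n` which contain `x` -/
def cv (n : ℕ) (a : ℕ → ℤ) (x : ℕ) : ℕ :=
  ((range (n + 1)).filter (fun p : ℕ => p.Prime ∧ (x : ℤ) ≡ a p [ZMOD p])).card

/-- every choice of classes leaves a deficit of at least `L` -/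
def Defi (n L : ℕ) : Prop := ∀ a : ℕ → ℤ, ∑ x ∈ Icc 1 n, min 2 (cv n a x) + L ≤ 2 * n

lemma not_has {n L : ℕ} (h : Defi n L) (hL : 1 ≤ L) : ¬ Has n := by
  rintro ⟨a, ha⟩
  have h1 := h a
  have h2 : ∑ x ∈ Icc 1 n, min 2 (cv n a x) = ∑ x ∈ Icc 1 n, 2 := by
    refine Finset.sum_congr rfl fun x hx => ?_
    rw [mem_Icc] at hx
    exact min_eq_left (ha x hx.1 hx.2)
  have h3 : ∑ x ∈ Icc 1 n, 2 = 2 * n := by simp [mul_comm]
  omega

lemma Defi.mono {n L L' : ℕ} (h : Defi n L) (hL : L' ≤ L) : Defi n L' := fun a => by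
  have := h a
  omega

lemma step {n L : ℕ} (h : Defi n (L + 1)) : Defi (n + 1) L := by
  intro a
  have h1 := h a
  rw [Finset.sum_Icc_succ_top (by omega)]
  have h2 : ∑ x ∈ Icc 1 n, min 2 (cv (n + 1) a x) ≤
      ∑ x ∈ Icc 1 n, (min 2 (cv n a x) + if (x : ℤ) ≡ a (n + 1) [ZMOD ((n + 1 : ℕ) : ℤ)] then 1 else 0) := by
    refine Finset.sum_le_sum fun x _ => ?_
    have h3 : cv (n + 1) a x ≤ cv n a x + if (x : ℤ) ≡ a (n + 1) [ZMOD ((n + 1 : ℕ) : ℤ)] then 1 else 0 := by
      unfold cv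
      rw [Finset.range_add_one (n := n + 1), Finset.filter_insert]
      split_ifs with h4 h5
      · exact Finset.card_insert_le _ _
      · exact absurd h4.2 h5
      · omega
      · omega
    omega
  rw [Finset.sum_add_distrib] at h2
  have h3 : ∑ x ∈ Icc 1 n, (if (x : ℤ) ≡ a (n + 1) [ZMOD ((n + 1 : ℕ) : ℤ)] then 1 else 0) ≤ 1 := by
    rw [← Finset.card_filter]
    refine (card_class n (n + 1) (by omega) _).trans ?_
    have : n + (n + 1) - 1 < 2 * (n + 1) := by omega
    have := Nat.div_lt_of_lt_mul (by omega : n + (n + 1) - 1 < (n + 1) * 2)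
    omega
  have h4 : min 2 (cv (n + 1) a (n + 1)) ≤ 2 := min_le_left _ _
  omega

lemma step' {n L : ℕ} (hn : ¬ (n + 1).Prime) (h : Defi n L) : Defi (n + 1) L := by
  intro a
  have h1 := h a
  rw [Finset.sum_Icc_succ_top (by omega)]
  have h2 : ∀ x, cv (n + 1) a x = cv n a x := by
    intro x
    unfold cv
    rw [Finset.range_add_one (n := n + 1), Finset.filter_insert, if_neg (fun h => hn h.1)]
  have h4 : min 2 (cv (n + 1) a (n + 1)) ≤ 2 := min_le_left _ _
  simp only [h2] at h4 ⊢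
  omega

/-- the basic criterion -/
theorem criterion (S : List ℕ) (n L : ℕ) (hS : S.Pairwise Nat.Coprime) (hnd : S.Nodup)
    (hpos : ∀ p ∈ S, 0 < p) (Rn A : ℕ) (hR : R S n = Rn) (hA : ∑ x ∈ Icc 1 n, w S x = A)
    (h : go S n (2 * n + 1 - Rn - L) S.prod 0 A 0 = true)
    (hRL : Rn + L ≤ 2 * n) :
    Defi n L := by
  classical
  intro a
  obtain ⟨t, ht, hta⟩ := crt S hS a hpos
  have h1 := go_spec S n _ _ _ _ _ h (by simp [hA]) t (by omega) (by simpa using ht)
  -- total
  have h2 : ∑ x ∈ Icc 1 n, min 2 (cv n a x) ≤ ∑ x ∈ Icc 1 n, (w S (t + x) +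
      ((range (n + 1)).filter (fun p : ℕ => (p.Prime ∧ p ∉ S) ∧ (x : ℤ) ≡ a p [ZMOD p])).card) := by
    refine Finset.sum_le_sum fun x hx => ?_
    rw [mem_Icc] at hx
    have h5 : cv n a x ≤
        (S.map (fun p => if (t + x) % p = 0 then 1 else 0)).sum +
        ((range (n + 1)).filter (fun p : ℕ => (p.Prime ∧ p ∉ S) ∧ (x : ℤ) ≡ a p [ZMOD p])).card := by
      have h6 : (S.map (fun p => if (t + x) % p = 0 then 1 else 0)).sum =
          (S.toFinset.filter (fun p => (t + x) % p = 0)).card := by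
        rw [Finset.card_filter, List.sum_toFinset _ hnd]
      rw [h6]
      refine le_trans (Finset.card_le_card ?_) (Finset.card_union_le _ _)
      intro p hp
      rw [mem_filter] at hp
      rw [mem_union, mem_filter, mem_filter]
      by_cases hpS : p ∈ S
      · left
        refine ⟨List.mem_toFinset.2 hpS, ?_⟩
        have h7 : ((t + x : ℕ) : ℤ) ≡ 0 [ZMOD p] := by
          push_cast
          have := (hta p hpS).add hp.2.2
          simpa using this
        have h8 : (p : ℤ) ∣ ((t + x : ℕ) : ℤ) := (Int.modEq_zero_iff_dvd).1 h7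
        exact Nat.mod_eq_zero_of_dvd (Int.natCast_dvd_natCast.1 h8)
      · right
        exact ⟨hp.1, ⟨hp.2.1, hpS⟩, hp.2.2⟩
    rw [w, cap_eq, cnt_eq]
    omega
  rw [Finset.sum_add_distrib] at h2
  have h3 : ∑ x ∈ Icc 1 n, ((range (n + 1)).filter
      (fun p : ℕ => (p.Prime ∧ p ∉ S) ∧ (x : ℤ) ≡ a p [ZMOD p])).card ≤ R S n := by
    have e1 : ∀ x : ℕ, ((range (n + 1)).filter
        (fun p : ℕ => (p.Prime ∧ p ∉ S) ∧ (x : ℤ) ≡ a p [ZMOD p])).card =
        ∑ p ∈ (range (n + 1)).filter (fun p => p.Prime ∧ p ∉ S),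
          if (x : ℤ) ≡ a p [ZMOD p] then 1 else 0 := by
      intro x
      rw [← Finset.card_filter, Finset.filter_filter]
    rw [Finset.sum_congr rfl (fun x _ => e1 x), Finset.sum_comm]
    unfold R
    refine Finset.sum_le_sum fun p hp => ?_
    rw [← Finset.card_filter]
    rw [mem_filter] at hp
    exact card_class n p hp.2.1.pos (a p)
  omega

end Pool.Agent.Y843.DC
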